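import Mathlib
import Pool.Agent.R341.SG.Defs
import Pool.Agent.R341.SG.Stm

/-!
# SG-WT: existence of the weights (uniform on the compatible status vectors of given sizes)
-/

namespace Pool.Agent.R26.SG

open Finset Pool.Agent.R341.SG

namespace WT

variable {n : ℕ}

/-- the singleton fibres -/
def Sing (f : Fin n → Fin n) : Finset (Fin n) := univ.filter fun x => ∀ y, f y = f x → y = x

open Classical in
/-- the compatible status vectors of given sizes -/
noncomputable def cls (f : Fin n → Fin n) (s l : ℕ) : Finset (Fin n → Fin 3) :=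
  univ.filter fun b => Compat f b ∧ (St b 0).card = s ∧ (St b 1).card = l

/-- the admissible sizes -/
def Adm (k : ℕ) (f : Fin n → Fin n) (s l : ℕ) : Prop :=
  ∃ k1 < k, ∃ k2 < k, s + k1 = sg f ∧ l + 2 * k2 = 2 * (rk f - sg f)

open Classical in
/-- the weights -/
noncomputable def wt (k : ℕ) (f : Fin n → Fin n) (b : Fin n → Fin 3) : ℝ :=
  if Compat f b ∧ Adm k f (St b 0).card (St b 1).card then
    1 / ((k : ℝ) ^ 2 * ((cls f (St b 0).card (St b 1).card).card : ℝ)) else 0

theorem exists_status (f : Fin n → Fin n) (k1 k2 : ℕ) (h1 : k1 ≤ sg f) (h2 : k2 ≤ rk f - sg f) :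
    ∃ b : Fin n → Fin 3, Compat f b ∧ (St b 0).card + k1 = sg f ∧
      (St b 1).card + 2 * k2 = 2 * (rk f - sg f) := by
  classical
  have hsg : sg f = (Sing f).card := rfl
  have hinj : Set.InjOn f (Sing f : Set (Fin n)) := by
    intro x hx y hy hxy
    have hy' := (Finset.mem_filter.1 (Finset.mem_coe.1 hy)).2
    exact hy' x hxy
  set J2 : Finset (Fin n) := im f \ (Sing f).image f with hJ2
  have hsub : (Sing f).image f ⊆ im f := Finset.image_subset_image (Finset.subset_univ _)
  have hJ2c : J2.card = rk f - sg f := by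
    rw [hJ2, Finset.card_sdiff_of_subset hsub, Finset.card_image_of_injOn hinj]
    rfl
  have hex : ∀ v : Fin n, ∃ x y : Fin n, v ∈ J2 → x ≠ y ∧ f x = v ∧ f y = v := by
    intro v
    by_cases hv : v ∈ J2
    · rw [hJ2, Finset.mem_sdiff] at hv
      obtain ⟨hv1, hv2⟩ := hv
      obtain ⟨x, _, hx⟩ := Finset.mem_image.1 hv1
      have hxS : x ∉ Sing f := fun h => hv2 (Finset.mem_image.2 ⟨x, h, hx⟩)
      have : ∃ y, f y = f x ∧ y ≠ x := by
        by_contra hcon
        push Not at hcon
        exact hxS (Finset.mem_filter.2 ⟨Finset.mem_univ _, hcon⟩)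
      obtain ⟨y, hy, hyx⟩ := this
      exact ⟨x, y, fun _ => ⟨hyx.symm, hx, hy.trans hx⟩⟩
    · exact ⟨v, v, fun h => absurd h hv⟩
  choose X Y hXY using hex
  obtain ⟨S0, hS0, hS0c⟩ := Finset.exists_subset_card_eq (s := Sing f) (n := sg f - k1)
    (by rw [← hsg]; omega)
  obtain ⟨J, hJ, hJc⟩ := Finset.exists_subset_card_eq (s := J2) (n := rk f - sg f - k2)
    (by rw [hJ2c]; omega)
  set S1 : Finset (Fin n) := J.image X ∪ J.image Y with hS1
  have hfX : ∀ v ∈ J, f (X v) = v := fun v hv => (hXY v (hJ hv)).2.1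
  have hfY : ∀ v ∈ J, f (Y v) = v := fun v hv => (hXY v (hJ hv)).2.2
  have hne : ∀ v ∈ J, X v ≠ Y v := fun v hv => (hXY v (hJ hv)).1
  have hXinj : Set.InjOn X (J : Set (Fin n)) := by
    intro v hv w hw hvw
    rw [← hfX v hv, ← hfX w hw, hvw]
  have hYinj : Set.InjOn Y (J : Set (Fin n)) := by
    intro v hv w hw hvw
    rw [← hfY v hv, ← hfY w hw, hvw]
  have hdis : Disjoint (J.image X) (J.image Y) := by
    rw [Finset.disjoint_left]
    intro x hx hy
    obtain ⟨v, hv, rfl⟩ := Finset.mem_image.1 hx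
    obtain ⟨w, hw, hwv⟩ := Finset.mem_image.1 hy
    have : w = v := by rw [← hfY w hw, hwv, hfX v hv]
    subst this
    exact hne w hw hwv.symm
  have hS1c : S1.card = 2 * (rk f - sg f - k2) := by
    rw [hS1, Finset.card_union_of_disjoint hdis, Finset.card_image_of_injOn hXinj,
      Finset.card_image_of_injOn hYinj, hJc]
    ring
  have hmem : ∀ x ∈ S1, ∃ v ∈ J, (x = X v ∨ x = Y v) ∧ f x = v := by
    intro x hx
    rcases Finset.mem_union.1 hx with h | h
    · obtain ⟨v, hv, rfl⟩ := Finset.mem_image.1 h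
      exact ⟨v, hv, Or.inl rfl, hfX v hv⟩
    · obtain ⟨v, hv, rfl⟩ := Finset.mem_image.1 h
      exact ⟨v, hv, Or.inr rfl, hfY v hv⟩
  have hXS : ∀ v ∈ J, X v ∈ S1 := fun v hv =>
    Finset.mem_union_left _ (Finset.mem_image_of_mem _ hv)
  have hYS : ∀ v ∈ J, Y v ∈ S1 := fun v hv =>
    Finset.mem_union_right _ (Finset.mem_image_of_mem _ hv)
  have hS01 : ∀ x ∈ S1, x ∉ S0 := by
    intro x hx h0
    obtain ⟨v, hv, _, hxv⟩ := hmem x hx
    have hvJ := hJ hv
    rw [hJ2, Finset.mem_sdiff] at hvJ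
    exact hvJ.2 (Finset.mem_image.2 ⟨x, hS0 h0, hxv⟩)
  obtain ⟨b, hb⟩ : ∃ b : Fin n → Fin 3, b = fun x => if x ∈ S0 then 0 else if x ∈ S1 then 1 else 2 :=
    ⟨_, rfl⟩
  have hb0 : ∀ x, b x = 0 ↔ x ∈ S0 := by
    intro x
    rw [hb]
    by_cases h0 : x ∈ S0
    · simp [h0]
    · by_cases h1' : x ∈ S1
      · simp [h0, h1']
      · simp [h0, h1']
  have hb1 : ∀ x, b x = 1 ↔ x ∈ S1 := by
    intro x
    rw [hb]
    by_cases h1' : x ∈ S1
    · simp [hS01 x h1', h1']
    · by_cases h0 : x ∈ S0
      · simp [h0, h1']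
      · simp [h0, h1']
  have e0 : St b 0 = S0 := by
    ext x
    simp only [St, Finset.mem_filter, Finset.mem_univ, true_and]
    exact hb0 x
  have e1 : St b 1 = S1 := by
    ext x
    simp only [St, Finset.mem_filter, Finset.mem_univ, true_and]
    exact hb1 x
  refine ⟨b, ⟨?_, ?_⟩, ?_, ?_⟩
  · intro x hx
    exact (Finset.mem_filter.1 (hS0 ((hb0 x).1 hx))).2
  · intro x hx
    obtain ⟨v, hv, hor, hxv⟩ := hmem x ((hb1 x).1 hx)
    have hz : ∀ z, b z = 1 → f z = f x → z = X v ∨ z = Y v := by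
      intro z hz1 hzx
      obtain ⟨w, hw, hor', hzw⟩ := hmem z ((hb1 z).1 hz1)
      have : w = v := by rw [← hzw, hzx, hxv]
      subst this
      exact hor'
    rcases hor with h | h
    · refine ⟨Y v, ?_, (hb1 _).2 (hYS v hv), by rw [hfY v hv, hxv], ?_⟩
      · rw [h]
        exact (hne v hv).symm
      · intro z hz1 hzx
        rw [h]
        exact hz z hz1 hzx
    · refine ⟨X v, ?_, (hb1 _).2 (hXS v hv), by rw [hfX v hv, hxv], ?_⟩
      · rw [h]
        exact hne v hv
      · intro z hz1 hzx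
        rw [h]
        exact (hz z hz1 hzx).symm
  · rw [e0, hS0c]
    omega
  · rw [e1, hS1c]
    omega

/-! ### equivariance -/

theorem St_comp (b : Fin n → Fin 3) (π : Equiv.Perm (Fin n)) (i : Fin 3) :
    (St (b ∘ π) i).card = (St b i).card := by
  unfold St
  rw [← Finset.card_map π.toEmbedding]
  congr 1
  ext x
  simp only [Finset.mem_map_equiv, Finset.mem_filter, Finset.mem_univ, true_and,
    Function.comp_apply, Equiv.apply_symm_apply]

theorem im_comp (f : Fin n → Fin n) (π : Equiv.Perm (Fin n)) : im (f ∘ π) = im f := by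
  ext v
  simp only [im, Finset.mem_image, Finset.mem_univ, true_and, Function.comp_apply]
  constructor
  · rintro ⟨x, hx⟩
    exact ⟨π x, hx⟩
  · rintro ⟨x, hx⟩
    exact ⟨π.symm x, by rw [Equiv.apply_symm_apply]; exact hx⟩

theorem rk_comp (f : Fin n → Fin n) (π : Equiv.Perm (Fin n)) : rk (f ∘ π) = rk f := by
  unfold rk
  rw [im_comp]

theorem sg_comp (f : Fin n → Fin n) (π : Equiv.Perm (Fin n)) : sg (f ∘ π) = sg f := by
  unfold sg
  rw [← Finset.card_map π.toEmbedding]
  congr 1
  ext x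
  simp only [Finset.mem_map_equiv, Finset.mem_filter, Finset.mem_univ, true_and,
    Function.comp_apply, Equiv.apply_symm_apply]
  constructor
  · intro h y hy
    have := h (π.symm y) (by rw [Equiv.apply_symm_apply]; exact hy)
    exact π.symm.injective this
  · intro h y hy
    have := h (π y) hy
    rw [← this, Equiv.symm_apply_apply]

theorem compat_comp_of (f : Fin n → Fin n) (b : Fin n → Fin 3) (π : Equiv.Perm (Fin n))
    (h : Compat f b) : Compat (f ∘ π) (b ∘ π) := by
  obtain ⟨h0, h1⟩ := h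
  refine ⟨?_, ?_⟩
  · intro x hx y hy
    exact π.injective (h0 (π x) hx (π y) hy)
  · intro x hx
    obtain ⟨y, hy1, hy2, hy3, hy4⟩ := h1 (π x) hx
    refine ⟨π.symm y, ?_, ?_, ?_, ?_⟩
    · intro hc
      apply hy1
      rw [← hc, Equiv.apply_symm_apply]
    · simp only [Function.comp_apply, Equiv.apply_symm_apply]
      exact hy2
    · simp only [Function.comp_apply, Equiv.apply_symm_apply]
      exact hy3
    · intro z hz1 hz2
      rcases hy4 (π z) hz1 hz2 with h | h
      · exact Or.inl (π.injective h)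
      · right
        rw [← h, Equiv.symm_apply_apply]

theorem compat_comp (f : Fin n → Fin n) (b : Fin n → Fin 3) (π : Equiv.Perm (Fin n)) :
    Compat (f ∘ π) (b ∘ π) ↔ Compat f b := by
  refine ⟨fun h => ?_, compat_comp_of f b π⟩
  have := compat_comp_of (f ∘ π) (b ∘ π) π.symm h
  have e1 : (f ∘ π) ∘ π.symm = f := by
    funext x
    simp
  have e2 : (b ∘ π) ∘ π.symm = b := by
    funext x
    simp
  rwa [e1, e2] at this

theorem cls_comp (f : Fin n → Fin n) (π : Equiv.Perm (Fin n)) (s l : ℕ) :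
    (cls (f ∘ π) s l).card = (cls f s l).card := by
  classical
  symm
  apply Finset.card_bij (fun b _ => b ∘ π)
  · intro b hb
    simp only [cls, Finset.mem_filter, Finset.mem_univ, true_and] at hb ⊢
    rw [compat_comp, St_comp, St_comp]
    exact hb
  · intro b _ c _ h
    funext x
    have := congrFun h (π.symm x)
    simpa using this
  · intro c hc
    refine ⟨c ∘ π.symm, ?_, ?_⟩
    · simp only [cls, Finset.mem_filter, Finset.mem_univ, true_and] at hc ⊢
      have e1 : (c ∘ π.symm) ∘ π = c := by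
        funext x
        simp
      rw [← compat_comp f _ π, ← St_comp (c ∘ π.symm) π 0, ← St_comp (c ∘ π.symm) π 1, e1]
      exact hc
    · funext x
      simp

theorem wt_equiv (k : ℕ) (f : Fin n → Fin n) (b : Fin n → Fin 3) (π : Equiv.Perm (Fin n)) :
    wt k (f ∘ π) (b ∘ π) = wt k f b := by
  unfold wt Adm
  rw [compat_comp, St_comp, St_comp, sg_comp, rk_comp, cls_comp]

/-! ### sums -/

theorem wt_nonneg (k : ℕ) (f : Fin n → Fin n) (b : Fin n → Fin 3) : 0 ≤ wt k f b := by
  unfold wt
  split_ifs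
  · positivity
  · exact le_refl 0

theorem wt_ne (k : ℕ) (f : Fin n → Fin n) (b : Fin n → Fin 3) (h : wt k f b ≠ 0) :
    Compat f b ∧ Adm k f (St b 0).card (St b 1).card := by
  by_contra hcon
  apply h
  unfold wt
  rw [if_neg hcon]

/-- the total weight of a class -/
theorem class_sum (k : ℕ) (hk : 1 ≤ k) (f : Fin n → Fin n) (s l : ℕ) (hadm : Adm k f s l)
    (hne : (cls f s l).Nonempty) : ∑ b ∈ cls f s l, wt k f b = 1 / (k : ℝ) ^ 2 := by
  classical
  have h1 : ∀ b ∈ cls f s l, wt k f b = 1 / ((k : ℝ) ^ 2 * ((cls f s l).card : ℝ)) := by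
    intro b hb
    simp only [cls, Finset.mem_filter, Finset.mem_univ, true_and] at hb
    obtain ⟨hc, hs, hl⟩ := hb
    unfold wt
    rw [hs, hl, if_pos ⟨hc, hadm⟩]
  rw [Finset.sum_congr rfl h1, Finset.sum_const, nsmul_eq_mul]
  have h2 : (0 : ℝ) < ((cls f s l).card : ℝ) := by
    exact_mod_cast Finset.card_pos.2 hne
  have h3 : (0 : ℝ) < k := by exact_mod_cast hk
  field_simp

open Classical in
theorem sum_eq_cls (k : ℕ) (f : Fin n → Fin n) (s l : ℕ) :
    ∑ b ∈ univ.filter (fun b : Fin n → Fin 3 => (St b 0).card = s ∧ (St b 1).card = l), wt k f b =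
      ∑ b ∈ cls f s l, wt k f b := by
  symm
  apply Finset.sum_subset
  · intro b hb
    simp only [cls, Finset.mem_filter, Finset.mem_univ, true_and] at hb ⊢
    exact hb.2
  · intro b hb hb'
    simp only [cls, Finset.mem_filter, Finset.mem_univ, true_and] at hb hb'
    by_contra hne
    exact hb' ⟨(wt_ne k f b hne).1, hb.1, hb.2⟩

theorem wt_spread (k : ℕ) (hk : 1 ≤ k) (f : Fin n → Fin n) (s l : ℕ) :
    ∑ b ∈ cls f s l, wt k f b ≤ 1 / (k : ℝ) ^ 2 := by
  classical
  by_cases hadm : Adm k f s l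
  · rcases (cls f s l).eq_empty_or_nonempty with he | hne
    · rw [he]
      simp only [Finset.sum_empty]
      positivity
    · exact (class_sum k hk f s l hadm hne).le
  · have : ∑ b ∈ cls f s l, wt k f b = 0 := by
      apply Finset.sum_eq_zero
      intro b hb
      simp only [cls, Finset.mem_filter, Finset.mem_univ, true_and] at hb
      by_contra hne
      have := (wt_ne k f b hne).2
      rw [hb.2.1, hb.2.2] at this
      exact hadm this
    rw [this]
    positivity

/-- the sum over all status vectors as a sum over classes -/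
theorem sum_split (k : ℕ) (f : Fin n → Fin n) :
    ∑ b, wt k f b = ∑ p ∈ (range k) ×ˢ (range k),
      ∑ b ∈ (univ : Finset (Fin n → Fin 3)).filter (fun b => (St b 0).card + p.1 = sg f ∧
        (St b 1).card + 2 * p.2 = 2 * (rk f - sg f)), wt k f b := by
  classical
  have h1 : ∀ p : ℕ × ℕ, ∑ b ∈ (univ : Finset (Fin n → Fin 3)).filter
      (fun b => (St b 0).card + p.1 = sg f ∧
        (St b 1).card + 2 * p.2 = 2 * (rk f - sg f)), wt k f b =
      ∑ b : Fin n → Fin 3, if (St b 0).card + p.1 = sg f ∧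
        (St b 1).card + 2 * p.2 = 2 * (rk f - sg f) then wt k f b else 0 := by
    intro p
    rw [Finset.sum_filter]
  rw [Finset.sum_congr rfl (fun p _ => h1 p), Finset.sum_comm]
  apply Finset.sum_congr rfl
  intro b _
  by_cases hw : wt k f b = 0
  · rw [hw]
    simp
  · obtain ⟨_, k1, hk1, k2, hk2, e1, e2⟩ := wt_ne k f b hw
    rw [Finset.sum_eq_single (k1, k2)]
    · rw [if_pos ⟨e1, e2⟩]
    · intro p _ hp
      rw [if_neg]
      rintro ⟨e3, e4⟩
      apply hp
      ext
      · simp only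
        omega
      · simp only
        omega
    · intro h
      exact absurd (Finset.mem_product.2 ⟨Finset.mem_range.2 hk1, Finset.mem_range.2 hk2⟩) h

theorem part_eq (k : ℕ) (f : Fin n → Fin n) (p : ℕ × ℕ) (h1 : p.1 ≤ sg f)
    (h2 : p.2 ≤ rk f - sg f) :
    ∑ b ∈ (univ : Finset (Fin n → Fin 3)).filter (fun b => (St b 0).card + p.1 = sg f ∧
        (St b 1).card + 2 * p.2 = 2 * (rk f - sg f)), wt k f b =
      ∑ b ∈ cls f (sg f - p.1) (2 * (rk f - sg f) - 2 * p.2), wt k f b := by
  classical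
  rw [← sum_eq_cls]
  apply Finset.sum_congr _ (fun _ _ => rfl)
  ext b
  simp only [Finset.mem_filter, Finset.mem_univ, true_and]
  omega

theorem part_le (k : ℕ) (hk : 1 ≤ k) (f : Fin n → Fin n) (p : ℕ × ℕ) :
    ∑ b ∈ (univ : Finset (Fin n → Fin 3)).filter (fun b => (St b 0).card + p.1 = sg f ∧
        (St b 1).card + 2 * p.2 = 2 * (rk f - sg f)), wt k f b ≤ 1 / (k : ℝ) ^ 2 := by
  classical
  by_cases h : p.1 ≤ sg f ∧ p.2 ≤ rk f - sg f
  · rw [part_eq k f p h.1 h.2]
    exact wt_spread k hk f _ _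
  · have : (univ : Finset (Fin n → Fin 3)).filter (fun b => (St b 0).card + p.1 = sg f ∧
        (St b 1).card + 2 * p.2 = 2 * (rk f - sg f)) = ∅ := by
      apply Finset.filter_false_of_mem
      rintro b - ⟨e1, e2⟩
      apply h
      constructor <;> omega
    rw [this]
    simp only [Finset.sum_empty]
    positivity

end WT

open WT in
theorem t_WT : SWT := by
  intro n k hk
  have hk0 : (0 : ℝ) < k := by exact_mod_cast hk
  refine ⟨wt k, ?_⟩
  refine ⟨wt_nonneg k, ?_, ?_, fun f b π => wt_equiv k f b π, fun f b h => (wt_ne k f b h).1,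
    ?_, ?_, ?_⟩
  · intro f
    rw [sum_split]
    calc ∑ p ∈ (range k) ×ˢ (range k),
          ∑ b ∈ (univ : Finset (Fin n → Fin 3)).filter (fun b => (St b 0).card + p.1 = sg f ∧
            (St b 1).card + 2 * p.2 = 2 * (rk f - sg f)), wt k f b
        ≤ ∑ _p ∈ (range k) ×ˢ (range k), 1 / (k : ℝ) ^ 2 :=
          Finset.sum_le_sum (fun p _ => part_le k hk f p)
      _ = 1 := by
          rw [Finset.sum_const, Finset.card_product, Finset.card_range, nsmul_eq_mul]
          push_cast
          field_simp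
  · intro f h1 h2
    rw [sum_split]
    have h3 : ∀ p ∈ (range k) ×ˢ (range k),
        ∑ b ∈ (univ : Finset (Fin n → Fin 3)).filter (fun b => (St b 0).card + p.1 = sg f ∧
            (St b 1).card + 2 * p.2 = 2 * (rk f - sg f)), wt k f b = 1 / (k : ℝ) ^ 2 := by
      intro p hp
      rw [Finset.mem_product, Finset.mem_range, Finset.mem_range] at hp
      have hp1 : p.1 ≤ sg f := by omega
      have hp2 : p.2 ≤ rk f - sg f := by omega
      rw [part_eq k f p hp1 hp2]
      apply class_sum k hk f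
      · exact ⟨p.1, hp.1, p.2, hp.2, by omega, by omega⟩
      · obtain ⟨b, hb1, hb2, hb3⟩ := exists_status f p.1 p.2 hp1 hp2
        refine ⟨b, ?_⟩
        simp only [cls, Finset.mem_filter, Finset.mem_univ, true_and]
        exact ⟨hb1, by omega, by omega⟩
    rw [Finset.sum_congr rfl h3, Finset.sum_const, Finset.card_product, Finset.card_range,
      nsmul_eq_mul]
    push_cast
    field_simp
  · intro f b h
    obtain ⟨_, k1, hk1, k2, hk2, e1, e2⟩ := wt_ne k f b h
    omega
  · intro f b h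
    obtain ⟨_, k1, hk1, k2, hk2, e1, e2⟩ := wt_ne k f b h
    omega
  · intro f s l
    have := wt_spread k hk f s l
    rw [← sum_eq_cls] at this
    convert this using 2

end Pool.Agent.R26.SG
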